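import Mathlib
import Pool.Agent.Helper18.UW.GoalsR

/-!
# Project UW, packet R6d: a start in every `l` rows
-/

set_option autoImplicit false

namespace Pool.Agent.Helper65.UW

open Finset
open Pool.Agent.Lead.Sh
open Pool.Agent.Helper43.Hw (T na va lz Play aa ac sc oo sk U Dd Sd Pn nx bb np)
open Pool.Agent.Helper43.Gm (Pri st mv nn)
open Pool.Agent.Helper18.EW
open Pool.Agent.Helper18.UW

theorem Su.base {m ms : ℕ → ℕ} {M μ δ R N0 N K b l Lg q v lam : ℕ} {W : ℤ}
    (h : Su m ms M μ δ R N0 N K b l Lg q v lam W) :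
    1 ≤ μ ∧ δ < μ ∧ b * l ≤ μ := by
  have hp := h.par
  have hb : 1 ≤ b := by
    have h1 := hp.b1
    have h2 := hp.L1
    omega
  have hbl : 1 ≤ b * l := Nat.mul_pos hb hp.l1
  have h3 : b * l ≤ 2 ^ 33 * b * (q + 1) ^ 2 * l := by
    have : 2 ^ 33 * b * (q + 1) ^ 2 * l = (2 ^ 33 * (q + 1) ^ 2) * (b * l) := by ring
    rw [this]
    exact Nat.le_mul_of_pos_left _ (by positivity)
  have h4 : b * l ≤ μ := le_trans h3 hp.b2
  have h5 := h.vb
  have h6 := h.d1
  refine ⟨by omega, by omega, h4⟩

theorem Su.mc {m ms : ℕ → ℕ} {M μ δ R N0 N K b l Lg q v lam : ℕ} {W : ℤ}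
    (h : Su m ms M μ δ R N0 N K b l Lg q v lam W) :
    ∀ c < N, 1 ≤ m c ∧ m c + 2 ≤ R := by
  intro c hc
  obtain ⟨h1, h2, h3⟩ := Su.base h
  have h4 := h.RM
  have h5 := h.μM
  rcases Nat.lt_or_ge c N0 with h6 | h6
  · have := h.pre c h6
    omega
  · have := h.main c h6 hc
    omega

theorem goalR6d (hU1 : GoalU1) (hU4 : GoalU4) : GoalR6d := by
  intro m ms M μ δ R N0 N K b l Lg q v lam Y W κ x hS hB
  obtain ⟨hμ1, hδ, hbl⟩ := Su.base hS
  have hmc := Su.mc hS
  have hRM := hS.RM
  have hμM := hS.μM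
  have hYJ := hB.YJ
  have hR2 : 2 ≤ R := by omega
  have hR1 := hS.par.R1
  obtain ⟨u1, -, -, -, -, u6, -, -, -⟩ := hU1 m R N κ x hmc hR2 hB.play
  -- monotonicity
  have hmono : ∀ a c, a ≤ c → c < R → κ a ≤ κ c := by
    intro a c hac
    induction c, hac using Nat.le_induction with
    | base => intro _; exact le_refl _
    | succ c hac ih => intro hc; exact le_trans (ih (by omega)) (hB.play.mono c hc)
  have hkN : ∀ y ≤ Y, κ y < N := fun y hy =>
    lt_of_le_of_lt (hmono y Y hy (by omega)) hB.kN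
  have hkN0 : ∀ y ≤ Y, R ≤ y + 50 * μ → N0 ≤ κ y := fun y hy hy2 =>
    le_trans hB.n0 (hmono _ y (by omega) (by omega))
  have hx : ∀ y ≤ Y, R ≤ y + 50 * μ → x y < μ := fun y hy hy2 =>
    lt_of_lt_of_le (hB.play.lt y (by omega) (hkN y hy))
      (hS.main _ (hkN0 y hy hy2) (hkN y hy)).2
  -- part A
  have hA : ∀ y, R ≤ y + 50 * μ → y < Y → lam + 1 + y < μ * (uo m R κ x y + 1) := by
    intro y hy hyY
    rw [← hB.ex y hyY, uz]
    have hyR : y < R := by omega
    have hk := hkN y hyY.le
    have hk0 := hkN0 y hyY.le hy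
    have h1 : ∑ c ∈ range N, va (m c) R κ x c y =
        ∑ c ∈ range (κ y), va (m c) R κ x c y + ∑ c ∈ Ico (κ y) N, va (m c) R κ x c y := by
      rw [range_eq_Ico, range_eq_Ico]
      exact (sum_Ico_consecutive _ (Nat.zero_le _) hk.le).symm
    have h2 : ∑ c ∈ Ico (κ y) N, va (m c) R κ x c y = x y := by
      rw [sum_eq_sum_Ico_succ_bot hk]
      have h3 : va (m (κ y)) R κ x (κ y) y = x y := by
        unfold va nn
        rw [if_neg (lt_irrefl _), if_neg (lt_irrefl _), if_pos rfl]
      have h4 : ∑ c ∈ Ico (κ y + 1) N, va (m c) R κ x c y = 0 := by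
        refine sum_eq_zero fun c hc => ?_
        rw [mem_Ico] at hc
        unfold va na
        rw [if_pos (by omega)]
        have := (hS.main c (by omega) hc.2).2
        omega
      rw [h3, h4, Nat.add_zero]
    have h5 : ∑ c ∈ range (κ y), va (m c) R κ x c y ≤ uo m R κ x y * μ := by
      unfold uo
      rw [← smul_eq_mul, ← sum_const, sum_filter]
      refine sum_le_sum fun c hc => ?_
      rw [mem_range] at hc
      split_ifs with hpos
      · have hc0 : N0 ≤ c := by
          by_contra hlt
          push Not at hlt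
          have h6 := ((u6 y hyR c hc).2.2.2).1 hpos
          have h7 : R - 60 * M < R := by omega
          have h8 : ac R κ x c ≤ R - 60 * M := by
            by_contra h9
            push Not at h9
            have h10 := ((u1 c (R - 60 * M) h7).2).2 h9
            have h11 := hB.n0
            unfold aa at h10
            omega
          have h12 := (hS.pre c hlt).2
          omega
        have hcm := (hS.main c hc0 (by omega)).2
        refine le_trans ?_ hcm
        unfold va nn
        rw [if_neg (by omega), if_neg (by omega), if_neg (by omega)]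
        exact le_trans (Nat.sub_le _ _) (Nat.sub_le _ _)
      · omega
    rw [h1, h2]
    have h6 := hx y hyY.le hy
    rw [Nat.mul_comm μ, Nat.add_mul, Nat.one_mul]
    omega
  refine ⟨hA, ?_⟩
  intro z hz hzl
  -- part B
  have hstep : ∀ y, R ≤ y + 50 * μ → y + 1 < Y →
      ∑ c ∈ range (κ (y + 1)), m c + x (y + 1) =
        ∑ c ∈ range (κ y), m c + x y + 1 + uo m R κ x y + us m κ x y := by
    intro y hy hyY
    have h1 := hU4 m R N κ x hmc hR2 hB.play y (by omega) (by
      intro c hc hcN
      have h2 := hkN0 y (by omega) hy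
      have h3 := (hS.main c (by omega) hcN).2
      unfold na
      omega)
    rw [hB.ex (y + 1) hyY, hB.ex y (by omega)] at h1
    omega
  have hsum : ∀ j, z + j < Y → 2 * μ * (∑ c ∈ range (κ z), m c + x z) + j * R ≤
      2 * μ * (∑ c ∈ range (κ (z + j)), m c + x (z + j)) := by
    intro j
    induction j with
    | zero => intro _; simp
    | succ j ih =>
      intro hj
      have h1 := ih (by omega)
      have h2 := hstep (z + j) (by omega) (by omega)
      have h3 := hA (z + j) (by omega) (by omega)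
      rw [← Nat.add_assoc, h2]
      have h4 : R ≤ 2 * (μ * (uo m R κ x (z + j) + 1)) := by omega
      nlinarith [Nat.zero_le (μ * us m κ x (z + j))]
  have h1 := hsum l hzl
  have h2 := hS.lo
  have h3 := hmono z (z + l) (by omega) (by omega)
  by_contra hcon
  have h4 : κ (z + l) = κ z := by omega
  rw [h4] at h1
  have h5 := hx (z + l) hzl.le (by omega)
  have h6 : 2 * μ * (∑ c ∈ range (κ z), m c + x (z + l)) <
      2 * μ * (∑ c ∈ range (κ z), m c) + 2 * μ * μ := by
    rw [Nat.mul_add]
    have : 2 * μ * x (z + l) < 2 * μ * μ := Nat.mul_lt_mul_of_pos_left h5 (by omega)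
    omega
  rw [Nat.mul_add] at h1
  nlinarith [Nat.zero_le (2 * μ * x z)]

end Pool.Agent.Helper65.UW
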